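import Pool.Agent.Helper26.LU.Goals

/-!
# Project LU: F1, reduction to the unit tetrahedron
-/

namespace Pool.Agent.Helper60.LU

open Matrix Real Pool.Agent.Helper26.LU

/-- The Gram matrix of the centred vertices. -/
theorem gram (v : Fin 4 → V) (a : ℝ)
    (h : ∀ i j, i ≠ j → (v i - v j) ⬝ᵥ (v i - v j) = a ^ 2) (w : V)
    (hw : w = (1 / 4 : ℝ) • ∑ j, v j) (i j : Fin 4) :
    (v i - w) ⬝ᵥ (v j - w) = if i = j then 3 * a ^ 2 / 8 else -(a ^ 2) / 8 := by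
  set u : Fin 4 → V := fun j => v j - w with hu
  have hsum : ∀ m, u 0 m + u 1 m + u 2 m + u 3 m = 0 := by
    intro m
    simp only [hu, hw, Fin.sum_univ_four, Pi.sub_apply, Pi.smul_apply, Pi.add_apply, smul_eq_mul]
    ring
  have hd : ∀ i j, i ≠ j → u i ⬝ᵥ u i - 2 * (u i ⬝ᵥ u j) + u j ⬝ᵥ u j = a ^ 2 := by
    intro i j hij
    rw [← h i j hij]
    have e : v i - v j = u i - u j := by
      simp only [hu]
      abel
    rw [e]
    simp only [dotProduct, Fin.sum_univ_three, Pi.sub_apply]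
    ring
  have hz : ∀ i, u i ⬝ᵥ u 0 + u i ⬝ᵥ u 1 + u i ⬝ᵥ u 2 + u i ⬝ᵥ u 3 = 0 := by
    intro i
    simp only [dotProduct, Fin.sum_univ_three]
    linear_combination (u i 0) * hsum 0 + (u i 1) * hsum 1 + (u i 2) * hsum 2
  have h01 := hd 0 1 (by decide)
  have h02 := hd 0 2 (by decide)
  have h03 := hd 0 3 (by decide)
  have h12 := hd 1 2 (by decide)
  have h13 := hd 1 3 (by decide)
  have h23 := hd 2 3 (by decide)
  have z0 := hz 0
  have z1 := hz 1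
  have z2 := hz 2
  have z3 := hz 3
  have c10 := dotProduct_comm (u 1) (u 0)
  have c20 := dotProduct_comm (u 2) (u 0)
  have c30 := dotProduct_comm (u 3) (u 0)
  have c21 := dotProduct_comm (u 2) (u 1)
  have c31 := dotProduct_comm (u 3) (u 1)
  have c32 := dotProduct_comm (u 3) (u 2)
  show u i ⬝ᵥ u j = _
  rw [c10] at z1
  rw [c20, c21] at z2
  rw [c30, c31, c32] at z3
  fin_cases i <;> fin_cases j <;> simp <;> linarith

/-- The diagonal reflection exchanging the last two vertices. -/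
def Pm : M3 := !![1, 0, 0; 0, -1, 0; 0, 0, 1]

theorem Pm_e (j : Fin 4) : Pm *ᵥ e (Equiv.swap 2 3 j) = e j := by
  have h0 : Equiv.swap (2 : Fin 4) 3 0 = 0 := by decide
  have h1 : Equiv.swap (2 : Fin 4) 3 1 = 1 := by decide
  have h2 : Equiv.swap (2 : Fin 4) 3 2 = 3 := by decide
  have h3 : Equiv.swap (2 : Fin 4) 3 3 = 2 := by decide
  ext i
  fin_cases j
  · show (Pm *ᵥ e (Equiv.swap 2 3 0)) i = e 0 i
    rw [h0]
    fin_cases i <;> simp [Pm, e, Matrix.mulVec, dotProduct, Fin.sum_univ_three]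
  · show (Pm *ᵥ e (Equiv.swap 2 3 1)) i = e 1 i
    rw [h1]
    fin_cases i <;> simp [Pm, e, Matrix.mulVec, dotProduct, Fin.sum_univ_three]
  · show (Pm *ᵥ e (Equiv.swap 2 3 2)) i = e 2 i
    rw [h2]
    fin_cases i <;> simp [Pm, e, Matrix.mulVec, dotProduct, Fin.sum_univ_three] <;> ring
  · show (Pm *ᵥ e (Equiv.swap 2 3 3)) i = e 3 i
    rw [h3]
    fin_cases i <;> simp [Pm, e, Matrix.mulVec, dotProduct, Fin.sum_univ_three] <;> ring

/-- Unit vectors with the Gram matrix of the tetrahedron are a rotated and relabelled copy. -/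
theorem exists_rotation (x : Fin 4 → V) (hx : ∀ i j, x i ⬝ᵥ x j = e i ⬝ᵥ e j)
    (hs : ∀ m, x 0 m + x 1 m + x 2 m + x 3 m = 0) :
    ∃ O ∈ SO3, ∃ σ : Equiv.Perm (Fin 4), ∀ j, x j = O *ᵥ e (σ j) := by
  set E : Matrix (Fin 3) (Fin 4) ℝ := Matrix.of fun m j => e j m with hE
  set X : Matrix (Fin 3) (Fin 4) ℝ := Matrix.of fun m j => x j m with hX
  have hG : Xᵀ * X = Eᵀ * E := by
    ext i j
    have := hx i j
    simpa [Matrix.mul_apply, dotProduct, hE, hX] using this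
  have hEE : E * Eᵀ = (4 / 3 : ℝ) • (1 : M3) := by
    ext k l
    fin_cases k <;> fin_cases l <;>
      simp [hE, Matrix.mul_apply, e, Fin.sum_univ_four] <;> ring_nf <;>
      (try simp only [sq2', sq6']) <;> norm_num
  set O : M3 := (3 / 4 : ℝ) • (X * Eᵀ) with hO
  have hOO : Oᵀ * O = 1 := by
    have e1 : Oᵀ * O = (9 / 16 : ℝ) • ((E * Eᵀ) * (E * Eᵀ)) := by
      rw [hO, Matrix.transpose_smul, Matrix.transpose_mul, Matrix.transpose_transpose,
        Matrix.smul_mul, Matrix.mul_smul, smul_smul]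
      have e2 : E * Xᵀ * (X * Eᵀ) = E * (Xᵀ * X) * Eᵀ := by
        simp only [Matrix.mul_assoc]
      rw [e2, hG]
      simp only [Matrix.mul_assoc]
      norm_num
    rw [e1, hEE, Matrix.smul_mul, Matrix.mul_smul, Matrix.mul_one, smul_smul, smul_smul]
    norm_num
  have hOe : ∀ j, O *ᵥ e j = x j := by
    intro j
    have hd := fun i => e_dot i j
    have h1 : O *ᵥ e j = (3 / 4 : ℝ) • ∑ i, (e i ⬝ᵥ e j) • x i := by
      ext m
      simp only [hO, hX, hE, Matrix.smul_apply, Pi.smul_apply, smul_eq_mul, Matrix.mulVec,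
        dotProduct, Matrix.mul_apply, Matrix.of_apply, Matrix.transpose_apply,
        Fin.sum_univ_three, Fin.sum_univ_four, Pi.add_apply]
      ring
    rw [h1]
    ext m
    have := hs m
    simp only [Pi.smul_apply, smul_eq_mul, Fin.sum_univ_four, Pi.add_apply, hd]
    fin_cases j <;> simp <;> linarith
  have hdet : O.det * O.det = 1 := by
    have := congrArg Matrix.det hOO
    rwa [Matrix.det_mul, Matrix.det_transpose, Matrix.det_one] at this
  rcases mul_self_eq_one_iff.1 hdet with h1 | h1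
  · exact ⟨O, (mem_SO3 O).2 ⟨mul_eq_one_comm.1 hOO, h1⟩, Equiv.refl _, fun j => (hOe j).symm⟩
  · refine ⟨O * Pm, (mem_SO3 _).2 ⟨?_, ?_⟩, Equiv.swap 2 3, fun j => ?_⟩
    · rw [Matrix.transpose_mul]
      have hP : Pm * Pmᵀ = 1 := by
        ext k l
        fin_cases k <;> fin_cases l <;> simp [Pm, Matrix.mul_apply, Fin.sum_univ_three]
      have e2 : O * Pm * (Pmᵀ * Oᵀ) = O * (Pm * Pmᵀ) * Oᵀ := by
        simp only [Matrix.mul_assoc]
      rw [e2, hP, Matrix.mul_one]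
      exact mul_eq_one_comm.1 hOO
    · rw [Matrix.det_mul, h1]
      simp [Pm, Matrix.det_fin_three]
    · rw [← Matrix.mulVec_mulVec, Pm_e, hOe]

theorem gF1 : G_F1 := by
  rintro ⟨δ, hδ, hcore⟩
  refine ⟨3 * δ / 8, by positivity, ?_⟩
  intro v a ha hv K hKc hKk hadm c hc
  set ρ : ℝ := Real.sqrt (3 * a ^ 2 / 8) with hρ
  have hρ2 : ρ ^ 2 = 3 * a ^ 2 / 8 := Real.sq_sqrt (by positivity)
  have hρ0 : 0 < ρ := Real.sqrt_pos.2 (by positivity)
  set w : V := (1 / 4 : ℝ) • ∑ j, v j with hw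
  have hgram := gram v a hv w hw
  have hx : ∀ i j, (ρ⁻¹ • (v i - w)) ⬝ᵥ (ρ⁻¹ • (v j - w)) = e i ⬝ᵥ e j := by
    intro i j
    rw [smul_dotProduct, dotProduct_smul, hgram, e_dot, smul_eq_mul, smul_eq_mul]
    have h1 : ρ⁻¹ * (ρ⁻¹ * (3 * a ^ 2 / 8)) = 1 := by
      rw [← hρ2]
      field_simp
    split_ifs
    · exact h1
    · linarith
  have hs : ∀ m, (ρ⁻¹ • (v 0 - w)) m + (ρ⁻¹ • (v 1 - w)) m + (ρ⁻¹ • (v 2 - w)) m +
      (ρ⁻¹ • (v 3 - w)) m = 0 := by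
    intro m
    simp only [hw, Fin.sum_univ_four, Pi.sub_apply, Pi.smul_apply, Pi.add_apply, smul_eq_mul]
    ring
  obtain ⟨O, hO, σ, hσ⟩ := exists_rotation (fun j => ρ⁻¹ • (v j - w)) hx hs
  have hv' : ∀ j, v j = ρ • (O *ᵥ e (σ j)) + w := by
    intro j
    rw [← hσ j, smul_smul, mul_inv_cancel₀ hρ0.ne', one_smul, sub_add_cancel]
  set Φ := Homeomorph.smulOfNeZero (α := V) ρ hρ0.ne' with hΦ
  have hfr : ∀ y : V, y ∈ frontier ((fun z : V => ρ • z) ⁻¹' K) ↔ ρ • y ∈ frontier K := by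
    intro y
    have h1 := Φ.preimage_frontier K
    have h2 : (Φ : V → V) = fun z : V => ρ • z := rfl
    rw [h2] at h1
    rw [← h1]
    rfl
  have hcomp : IsCompact ((fun z : V => ρ • z) ⁻¹' K) := (Φ.isCompact_preimage).2 hKk
  obtain ⟨c₁, hc₁⟩ := hcore ((fun z : V => ρ • z) ⁻¹' K) (ρ⁻¹ • c) (hKc.smul_preimage ρ) hcomp
    (by
      intro R' hR'
      obtain ⟨t, ht⟩ := hadm (R' * Oᵀ) (SO3_mul hR' (SO3_transpose hO))
      refine ⟨ρ⁻¹ • ((R' * Oᵀ) *ᵥ w + t), fun j => ?_⟩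
      rw [hfr]
      have h1 := ht (σ.symm j)
      rw [hv', Equiv.apply_symm_apply] at h1
      have h2 : (R' * Oᵀ) *ᵥ (ρ • (O *ᵥ e j) + w) + t =
          ρ • (R' *ᵥ e j + ρ⁻¹ • ((R' * Oᵀ) *ᵥ w + t)) := by
        rw [Matrix.mulVec_add, Matrix.mulVec_smul, Matrix.mulVec_mulVec, Matrix.mul_assoc,
          SO3_left hO, Matrix.mul_one, smul_add, smul_smul, mul_inv_cancel₀ hρ0.ne', one_smul]
        abel
      rw [h2] at h1
      exact h1)
    (by
      intro y hy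
      rw [hfr] at hy
      have h1 := hc _ hy
      have e1 : (ρ • y - c) ⬝ᵥ (ρ • y - c) - 3 * a ^ 2 / 8 =
          ρ ^ 2 * ((y - ρ⁻¹ • c) ⬝ᵥ (y - ρ⁻¹ • c) - 1) := by
        have e2 : ρ • y - c = ρ • (y - ρ⁻¹ • c) := by
          rw [smul_sub, smul_smul, mul_inv_cancel₀ hρ0.ne', one_smul]
        rw [e2, smul_dotProduct, dotProduct_smul, smul_eq_mul, smul_eq_mul, ← hρ2]
        ring
      rw [e1, abs_mul, abs_of_pos (by positivity : 0 < ρ ^ 2)] at h1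
      have h2 : 3 * δ / 8 * a ^ 2 = ρ ^ 2 * δ := by
        rw [hρ2]
        ring
      rw [h2] at h1
      exact le_of_mul_le_mul_left h1 (by positivity))
  refine ⟨ρ • c₁, ?_⟩
  ext x
  have h1 : x ∈ frontier K ↔ ρ⁻¹ • x ∈ frontier ((fun z : V => ρ • z) ⁻¹' K) := by
    rw [hfr, smul_smul, mul_inv_cancel₀ hρ0.ne', one_smul]
  rw [h1, hc₁]
  show (ρ⁻¹ • x - c₁) ⬝ᵥ (ρ⁻¹ • x - c₁) = 1 ↔ (x - ρ • c₁) ⬝ᵥ (x - ρ • c₁) = 3 * a ^ 2 / 8
  have e2 : x - ρ • c₁ = ρ • (ρ⁻¹ • x - c₁) := by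
    rw [smul_sub, smul_smul, mul_inv_cancel₀ hρ0.ne', one_smul]
  rw [e2, smul_dotProduct, dotProduct_smul, smul_eq_mul, smul_eq_mul, ← hρ2]
  constructor
  · intro h
    rw [h]
    ring
  · intro h
    have h3 : ρ ^ 2 * ((ρ⁻¹ • x - c₁) ⬝ᵥ (ρ⁻¹ • x - c₁)) = ρ ^ 2 * 1 := by
      rw [mul_one]
      linarith
    exact mul_left_cancel₀ (by positivity) h3

end Pool.Agent.Helper60.LU
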